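import Pool.Agent.H683.BW.Stm

/-!
# Project BW (helper683), leaf S_CH: the chains of a directed tree form a decomposition
-/

set_option autoImplicit false

namespace Pool.Agent.H105.BWCH

open Pool.Agent.NPC Pool.Agent.H633R2 Pool.Agent.H683.BW

/-- There are no directed cycles. -/
theorem acyc {M : List (List Bool)} (hM : IsDirTree M) (v : Fin M.length) :
    ¬ Relation.TransGen (Arc M) v v := by
  intro h
  obtain ⟨w, hvw, hwv⟩ := Relation.TransGen.head'_iff.1 h
  have hadj : (graphOf M).Adj v w :=
    ⟨by rintro rfl; exact hM.1 _ _ hvw hvw, Or.inl hvw⟩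
  have hb := (SimpleGraph.isAcyclic_iff_forall_adj_isBridge.1 hM.2.isAcyclic) hadj
  rw [SimpleGraph.isBridge_iff] at hb
  apply hb
  apply SimpleGraph.Reachable.symm
  have H : ∀ x, Relation.ReflTransGen (Arc M) w x →
      ((graphOf M).deleteEdges {s(v, w)}).Reachable w x := by
    intro x hx
    induction hx with
    | refl => exact SimpleGraph.Reachable.refl _
    | @tail x y hx hxy ih =>
      by_cases hc : s(x, y) = s(v, w)
      · rcases Sym2.eq_iff.1 hc with ⟨rfl, rfl⟩ | ⟨rfl, rfl⟩
        · exact SimpleGraph.Reachable.refl _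
        · exact absurd hxy (hM.1 _ _ hvw)
      · refine ih.trans (SimpleGraph.Adj.reachable ?_)
        rw [SimpleGraph.deleteEdges_adj]
        refine ⟨⟨?_, Or.inl hxy⟩, by simpa using hc⟩
        rintro rfl
        exact hM.1 _ _ hxy hxy
  exact H v hwv

theorem wf {M : List (List Bool)} (hM : IsDirTree M) : WellFounded (Arc M) := by
  have h1 : IsTrans (Fin M.length) (Relation.TransGen (Arc M)) := ⟨fun _ _ _ => Relation.TransGen.trans⟩
  have h2 : Std.Irrefl (Relation.TransGen (Arc M)) := ⟨acyc hM⟩
  have h3 : WellFounded (Relation.TransGen (Arc M)) := Finite.wellFounded_of_trans_of_irrefl _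
  exact Subrelation.wf (fun h => Relation.TransGen.single h) h3

theorem link_iff (M : List (List Bool)) (u v : ℕ) :
    link M u v = true ↔ entry M u v = true ∧ (outs M u).length = 1 ∧ (ins M v).length = 1 := by
  simp [link, and_assoc]

theorem mem_outs {M : List (List Bool)} {u v : ℕ} : v ∈ outs M u ↔ v < M.length ∧ entry M u v = true := by
  simp [outs]

theorem mem_ins {M : List (List Bool)} {u v : ℕ} : u ∈ ins M v ↔ u < M.length ∧ entry M u v = true := by
  simp [ins]

theorem mem_heads {M : List (List Bool)} {p : ℕ} :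
    p ∈ heads M ↔ p < M.length ∧ ∀ u < M.length, link M u p = false := by
  simp [heads]

theorem len1 {l : List ℕ} (h : l.length = 1) {a b : ℕ} (ha : a ∈ l) (hb : b ∈ l) : a = b := by
  obtain ⟨c, rfl⟩ := List.length_eq_one_iff.1 h
  simp only [List.mem_singleton] at ha hb
  rw [ha, hb]

/-- The successor is unique, even among all arcs. -/
theorem succ_unique {M : List (List Bool)} {u v w : ℕ} (hv : v < M.length) (hw : w < M.length)
    (h : link M u v = true) (h' : entry M u w = true) : v = w :=
  len1 ((link_iff M u v).1 h).2.1 (mem_outs.2 ⟨hv, ((link_iff M u v).1 h).1⟩) (mem_outs.2 ⟨hw, h'⟩)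

/-- The predecessor is unique, even among all arcs. -/
theorem pred_unique {M : List (List Bool)} {u v w : ℕ} (hu : u < M.length) (hw : w < M.length)
    (h : link M u v = true) (h' : entry M w v = true) : u = w :=
  len1 ((link_iff M u v).1 h).2.2 (mem_ins.2 ⟨hu, ((link_iff M u v).1 h).1⟩) (mem_ins.2 ⟨hw, h'⟩)

theorem grow_cases (M : List (List Bool)) (u : ℕ) (l : List ℕ) :
    (∃ w, w < M.length ∧ link M u w = true ∧ grow M (u :: l) = w :: u :: l) ∨
      ((∀ w < M.length, link M u w = false) ∧ grow M (u :: l) = u :: l) := by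
  rcases hf : (List.range M.length).filter (fun v => link M u v) with _ | ⟨w, t⟩
  · right
    refine ⟨?_, by simp [grow, hf]⟩
    intro w hw
    have h := List.filter_eq_nil_iff.1 hf w (List.mem_range.2 hw)
    simpa using h
  · left
    have h : w ∈ (List.range M.length).filter (fun v => link M u v) := by rw [hf]; simp
    rw [List.mem_filter, List.mem_range] at h
    exact ⟨w, h.1, h.2, by simp [grow, hf]⟩

/-- The invariant of the construction. -/
structure Inv (M : List (List Bool)) (p : ℕ) (l : List ℕ) : Prop where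
  ne : l ≠ []
  last : l.getLast? = some p
  chain : l.IsChain (fun a b => link M b a = true)
  lt : ∀ x ∈ l, x < M.length

theorem inv_grow {M : List (List Bool)} {p : ℕ} {l : List ℕ} (h : Inv M p l) : Inv M p (grow M l) := by
  rcases l with _ | ⟨u, l⟩
  · exact absurd rfl h.ne
  · rcases grow_cases M u l with ⟨w, hw, hl, hg⟩ | ⟨-, hg⟩
    · rw [hg]
      refine ⟨by simp, ?_, ?_, ?_⟩
      · rw [List.getLast?_cons_cons]
        exact h.last
      · rw [List.isChain_cons_cons]
        exact ⟨hl, h.chain⟩
      · intro x hx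
        rcases List.mem_cons.1 hx with rfl | hx
        · exact hw
        · exact h.lt x hx
    · rw [hg]
      exact h

theorem inv_iter {M : List (List Bool)} {p : ℕ} (hp : p < M.length) (m : ℕ) :
    Inv M p ((grow M)^[m] [p]) := by
  induction m with
  | zero =>
    refine ⟨by simp, by simp, by simp, ?_⟩
    intro x hx
    simp only [Function.iterate_zero, id_eq, List.mem_singleton] at hx
    rw [hx]
    exact hp
  | succ m ih =>
    rw [Function.iterate_succ_apply']
    exact inv_grow ih

theorem iter_len {M : List (List Bool)} {p : ℕ} (hp : p < M.length) (m : ℕ) :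
    ((grow M)^[m] [p]).length = m + 1 ∨ grow M ((grow M)^[m] [p]) = (grow M)^[m] [p] := by
  induction m with
  | zero => left; simp
  | succ m ih =>
    rw [Function.iterate_succ_apply']
    rcases ih with h | h
    · rcases hl : (grow M)^[m] [p] with _ | ⟨u, l⟩
      · exact absurd hl (inv_iter hp m).ne
      · rcases grow_cases M u l with ⟨w, -, -, hg⟩ | ⟨-, hg⟩
        · left
          rw [hl] at h
          rw [hg, List.length_cons, h]
        · right
          rw [hg, hg]
    · right
      rw [h, h]

theorem tg {M : List (List Bool)} {u v : ℕ} (hu : u < M.length) (hv : v < M.length)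
    (h : link M u v = true) : Relation.TransGen (Arc M) ⟨u, hu⟩ ⟨v, hv⟩ :=
  Relation.TransGen.single ((link_iff M u v).1 h).1

/-- The relation (there is a directed path) on numbers. -/
def Below (M : List (List Bool)) (a b : ℕ) : Prop :=
  ∃ (hb : b < M.length) (ha : a < M.length), Relation.TransGen (Arc M) ⟨b, hb⟩ ⟨a, ha⟩

theorem inv_nodup {M : List (List Bool)} (hM : IsDirTree M) {p : ℕ} {l : List ℕ} (h : Inv M p l) :
    l.Nodup := by
  have h1 : l.IsChain (Below M) := by
    rw [List.isChain_iff_getElem]
    intro i hi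
    have h2 := (List.isChain_iff_getElem.1 h.chain) i hi
    exact ⟨h.lt _ (List.getElem_mem _), h.lt _ (List.getElem_mem _), tg _ _ h2⟩
  have h3 : IsTrans ℕ (Below M) := ⟨fun a b c hab hbc => by
    obtain ⟨hb, ha, h1⟩ := hab
    obtain ⟨hc, _, h2⟩ := hbc
    exact ⟨hc, ha, h2.trans h1⟩⟩
  have h4 : l.Pairwise (Below M) := List.isChain_iff_pairwise.1 h1
  refine h4.imp ?_
  rintro a b ⟨hb, ha, h5⟩ rfl
  exact acyc hM _ h5

theorem rev_stuck {M : List (List Bool)} (hM : IsDirTree M) {p : ℕ} (hp : p < M.length) :
    grow M (revChain M p) = revChain M p := by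
  rcases iter_len hp M.length with h | h
  · exfalso
    have h1 := inv_iter hp M.length
    have h2 := inv_nodup hM h1
    have h3 : ((grow M)^[M.length] [p]).length ≤ (List.range M.length).length :=
      (List.subperm_of_subset h2 (fun x hx => List.mem_range.2 (h1.lt x hx))).length_le
    rw [List.length_range, h] at h3
    omega
  · exact h

/-- The properties of a chain. -/
structure Fwd (M : List (List Bool)) (p : ℕ) (l : List ℕ) : Prop where
  ne : l ≠ []
  hd : ∀ h : 0 < l.length, l[0] = p
  chain : ∀ (i : ℕ) (h : i + 1 < l.length), link M l[i] l[i + 1] = true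
  lt : ∀ x ∈ l, x < M.length
  last : ∀ (i : ℕ) (h : i < l.length), i + 1 = l.length → ∀ w < M.length, link M l[i] w = false
  nodup : l.Nodup

theorem fwd {M : List (List Bool)} (hM : IsDirTree M) {p : ℕ} (hp : p < M.length) :
    Fwd M p (revChain M p).reverse := by
  have h1 : Inv M p (revChain M p) := inv_iter hp M.length
  have h2 := rev_stuck hM hp
  have h3 := inv_nodup hM h1
  refine ⟨by simpa using h1.ne, ?_, ?_, ?_, ?_, List.nodup_reverse.2 h3⟩
  · intro h
    have h4 : (revChain M p).reverse.head? = some p := by rw [List.head?_reverse]; exact h1.last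
    rw [List.head?_eq_getElem?, List.getElem?_eq_getElem h] at h4
    exact Option.some.inj h4
  · have h4 : (revChain M p).reverse.IsChain (fun a b => link M a b = true) := by
      rw [List.isChain_reverse]
      exact h1.chain
    exact fun i h => (List.isChain_iff_getElem.1 h4) i h
  · intro x hx
    exact h1.lt x (List.mem_reverse.1 hx)
  · intro i hi hi' w hw
    obtain ⟨u, t, hl⟩ : ∃ u t, revChain M p = u :: t := List.exists_cons_of_ne_nil h1.ne
    have h4 : (revChain M p).reverse[i] = u := by
      have h5 : (revChain M p).reverse[i] = (revChain M p)[0]'(List.length_pos_iff.2 h1.ne) := by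
        rw [List.getElem_reverse]
        congr 1
        rw [List.length_reverse] at hi'
        omega
      rw [h5]
      have h6 : (revChain M p)[0]? = some u := by rw [hl]; rfl
      rw [List.getElem?_eq_getElem (List.length_pos_iff.2 h1.ne)] at h6
      exact Option.some.inj h6
    rw [h4]
    rcases grow_cases M u t with ⟨w', -, -, hg⟩ | ⟨hs, -⟩
    · exfalso
      rw [hl, hg] at h2
      have h7 := congrArg List.length h2
      simp at h7
    · exact hs w hw

theorem mem_succ {M : List (List Bool)} {p : ℕ} {l : List ℕ} (h : Fwd M p l) {u v : ℕ} (hu : u ∈ l)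
    (hv : v < M.length) (huv : link M u v = true) :
    ∃ (i : ℕ) (h : i + 1 < l.length), l[i] = u ∧ l[i + 1] = v := by
  obtain ⟨i, hi, rfl⟩ := List.getElem_of_mem hu
  by_cases h1 : i + 1 < l.length
  · refine ⟨i, h1, rfl, ?_⟩
    exact (succ_unique hv (h.lt _ (List.getElem_mem _)) huv ((link_iff M _ _).1 (h.chain i h1)).1).symm
  · exfalso
    have h2 := h.last i hi (by omega) v hv
    rw [h2] at huv
    exact Bool.false_ne_true huv

theorem mem_pred {M : List (List Bool)} {p : ℕ} {l : List ℕ} (h : Fwd M p l) {v : ℕ} (hv : v ∈ l)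
    (hvp : v ≠ p) : ∃ u ∈ l, link M u v = true := by
  obtain ⟨i, hi, rfl⟩ := List.getElem_of_mem hv
  rcases i with _ | i
  · exact absurd (h.hd hi) hvp
  · exact ⟨l[i], List.getElem_mem _, h.chain i hi⟩

theorem hd_mem {M : List (List Bool)} {p : ℕ} {l : List ℕ} (h : Fwd M p l) : p ∈ l := by
  have h1 : 0 < l.length := List.length_pos_iff.2 h.ne
  rw [← h.hd h1]
  exact List.getElem_mem _

theorem covered {M : List (List Bool)} (hM : IsDirTree M) (v : Fin M.length) :
    ∃ p ∈ heads M, (v : ℕ) ∈ (revChain M p).reverse := by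
  induction v using (wf hM).induction with
  | h v ih =>
    by_cases hv : (v : ℕ) ∈ heads M
    · exact ⟨v, hv, hd_mem (fwd hM v.2)⟩
    · rw [mem_heads] at hv
      push Not at hv
      obtain ⟨u, hu, huv⟩ := hv v.2
      have huv' : link M u v = true := by simpa using huv
      obtain ⟨p, hp, hup⟩ := ih ⟨u, hu⟩ ((link_iff M _ _).1 huv').1
      obtain ⟨i, hi, -, h2⟩ := mem_succ (fwd hM (mem_heads.1 hp).1) hup v.2 huv'
      exact ⟨p, hp, by rw [← h2]; exact List.getElem_mem _⟩

theorem unique {M : List (List Bool)} (hM : IsDirTree M) (v : Fin M.length) :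
    ∀ p ∈ heads M, ∀ p' ∈ heads M, (v : ℕ) ∈ (revChain M p).reverse →
      (v : ℕ) ∈ (revChain M p').reverse → p = p' := by
  induction v using (wf hM).induction with
  | h v ih =>
    intro p hp p' hp' h h'
    have hp1 := mem_heads.1 hp
    have hp1' := mem_heads.1 hp'
    have f := fwd hM hp1.1
    have f' := fwd hM hp1'.1
    by_cases e : (v : ℕ) = p
    · by_cases e' : (v : ℕ) = p'
      · rw [← e, ← e']
      · obtain ⟨u, hu, huv⟩ := mem_pred f' h' e'
        rw [e, hp1.2 u (f'.lt u hu)] at huv
        exact absurd huv Bool.false_ne_true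
    · obtain ⟨u, hu, huv⟩ := mem_pred f h e
      by_cases e' : (v : ℕ) = p'
      · rw [e', hp1'.2 u (f.lt u hu)] at huv
        exact absurd huv Bool.false_ne_true
      · obtain ⟨u', hu', huv'⟩ := mem_pred f' h' e'
        have h1 : u = u' := pred_unique (f.lt u hu) (f'.lt u' hu') huv ((link_iff M _ _).1 huv').1
        subst h1
        exact ih ⟨u, f.lt u hu⟩ ((link_iff M _ _).1 huv).1 p hp p' hp' hu hu'

theorem CH : S_CH := by
  intro M hM
  have hmem : ∀ l, l ∈ chs M ↔ ∃ p ∈ heads M, (revChain M p).reverse = l := by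
    intro l
    simp [chs]
  have hhead : ∀ p ∈ heads M, ∀ l, (revChain M p).reverse = l → l.headD 0 = p := by
    rintro p hp l rfl
    have f := fwd hM (mem_heads.1 hp).1
    have h1 : 0 < (revChain M p).reverse.length := List.length_pos_iff.2 f.ne
    have h2 := f.hd h1
    rw [List.headD_eq_head?_getD, List.head?_eq_getElem?, List.getElem?_eq_getElem h1, h2]
    rfl
  refine ⟨?_, ?_, ?_, ?_, ?_⟩
  · rw [List.nodup_flatten]
    constructor
    · intro l hl
      obtain ⟨p, hp, rfl⟩ := (hmem l).1 hl
      exact (fwd hM (mem_heads.1 hp).1).nodup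
    · have hn : (heads M).Nodup := List.Nodup.filter _ List.nodup_range
      unfold chs
      rw [List.pairwise_map]
      refine List.Pairwise.imp_of_mem ?_ hn
      intro p p' hp hp' hne
      rw [List.disjoint_left]
      intro v hv hv'
      exact hne (unique hM ⟨v, (fwd hM (mem_heads.1 hp).1).lt v hv⟩ p hp p' hp' hv hv')
  · intro v
    rw [List.mem_flatten]
    constructor
    · rintro ⟨l, hl, hv⟩
      obtain ⟨p, hp, rfl⟩ := (hmem l).1 hl
      exact (fwd hM (mem_heads.1 hp).1).lt v hv
    · intro hv
      obtain ⟨p, hp, h⟩ := covered hM ⟨v, hv⟩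
      exact ⟨_, (hmem _).2 ⟨p, hp, rfl⟩, h⟩
  · intro l hl
    obtain ⟨p, hp, rfl⟩ := (hmem l).1 hl
    exact (fwd hM (mem_heads.1 hp).1).ne
  · intro l hl i hi
    obtain ⟨p, hp, rfl⟩ := (hmem l).1 hl
    exact ((link_iff M _ _).1 ((fwd hM (mem_heads.1 hp).1).chain i hi)).1
  · intro u v hu hv huv
    obtain ⟨p, hp, hup⟩ := covered hM ⟨u, hu⟩
    have f := fwd hM (mem_heads.1 hp).1
    by_cases hl : link M u v = true
    · left
      exact ⟨_, (hmem _).2 ⟨p, hp, rfl⟩, mem_succ f hup hv hl⟩
    · right
      have hvh : v ∈ heads M := by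
        rw [mem_heads]
        refine ⟨hv, fun w hw => ?_⟩
        by_contra hc
        have hc' : link M w v = true := by simpa using hc
        have : w = u := pred_unique hw hu hc' huv
        rw [this] at hc'
        exact hl hc'
      refine ⟨_, (hmem _).2 ⟨p, hp, rfl⟩, _, (hmem _).2 ⟨v, hvh, rfl⟩, ?_, hhead v hvh _ rfl⟩
      obtain ⟨i, hi, hiu⟩ := List.getElem_of_mem hup
      by_cases h1 : i + 1 < (revChain M p).reverse.length
      · exfalso
        have h2 := f.chain i h1
        rw [hiu] at h2
        have h3 := succ_unique (f.lt _ (List.getElem_mem _)) hv h2 huv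
        rw [h3] at h2
        exact hl h2
      · have h2 : i = (revChain M p).reverse.length - 1 := by omega
        rw [List.getLastD_eq_getLast?, List.getLast?_eq_getElem?, ← h2, List.getElem?_eq_getElem hi, hiu]
        rfl

end Pool.Agent.H105.BWCH

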