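import Pool.Agent.H979.DE.Stm

/-!
Project DE (helper979), problem MP_856411_pr: Lévy's 0-1 law in terms of cylinders.
-/

set_option autoImplicit false

namespace Pool.Agent.H105.DELEVY

open MeasureTheory Filter Pool.Agent.H979.DE
open scoped ENNReal

variable {V : Type} [Countable V] [MeasurableSpace V] [DiscreteMeasurableSpace V]

/-- the coordinates up to time `n` are measurable with respect to the past -/
theorem meas_eval (n k : ℕ) (hk : k ≤ n) :
    @Measurable (ℕ → V) V (Filtration.piLE (X := fun _ : ℕ => V) n) _ (fun w => w k) := by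
  have h1 : @Measurable (ℕ → V) ((i : Set.Iic n) → V) (Filtration.piLE (X := fun _ : ℕ => V) n) _
      (Preorder.restrictLe n) := comap_measurable _
  exact (measurable_pi_apply (⟨k, hk⟩ : Set.Iic n)).comp h1

/-- the cylinders belong to the past -/
theorem meas_cyl (x : ℕ → V) (n : ℕ) :
    MeasurableSet[Filtration.piLE (X := fun _ : ℕ => V) n] (cyl x n) := by
  have h1 : cyl x n = ⋂ k : Set.Iic n, (fun w : ℕ → V => w k) ⁻¹' {x k} := by
    ext w
    simp only [cyl, Set.mem_setOf_eq, Set.mem_iInter, Set.mem_preimage, Set.mem_singleton_iff]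
    exact ⟨fun h k => h k k.2, fun h k hk => h ⟨k, hk⟩⟩
  rw [h1]
  refine @MeasurableSet.iInter _ _ (Filtration.piLE (X := fun _ : ℕ => V) n) _ _ (fun k => ?_)
  exact meas_eval n k k.2 (measurableSet_singleton _)

/-- the past generates everything -/
theorem sup_le : (MeasurableSpace.pi : MeasurableSpace (ℕ → V)) ≤
    ⨆ n, (Filtration.piLE (X := fun _ : ℕ => V) n : MeasurableSpace (ℕ → V)) := by
  refine iSup_le (fun k => ?_)
  refine le_trans ?_ (le_iSup _ k)
  exact (meas_eval k k le_rfl).comap_le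

/-- almost surely all the cylinders have positive measure -/
theorem ae_pos (P : Measure (ℕ → V)) : ∀ᵐ w ∂P, ∀ n, P (cyl w n) ≠ 0 := by
  rw [ae_all_iff]
  intro n
  rw [ae_iff]
  have h1 : {w : ℕ → V | ¬ P (cyl w n) ≠ 0} ⊆
      ⋃ y : Fin (n + 1) → V, {w | (∀ k : Fin (n + 1), w k = y k) ∧ P (cyl w n) = 0} := by
    intro w hw
    rw [Set.mem_iUnion]
    exact ⟨fun k => w k, fun k => rfl, not_not.1 hw⟩
  refine measure_mono_null h1 (measure_iUnion_null (fun y => ?_))
  by_cases hy : ∃ w₀ : ℕ → V, (∀ k : Fin (n + 1), w₀ k = y k) ∧ P (cyl w₀ n) = 0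
  · obtain ⟨w₀, hw₀, hw₀'⟩ := hy
    refine measure_mono_null ?_ hw₀'
    intro w hw k hk
    have h2 := hw.1 ⟨k, Nat.lt_succ_iff.2 hk⟩
    have h3 := hw₀ ⟨k, Nat.lt_succ_iff.2 hk⟩
    exact h2.trans h3.symm
  · have h4 : {w : ℕ → V | (∀ k : Fin (n + 1), w k = y k) ∧ P (cyl w n) = 0} = ∅ := by
      rw [Set.eq_empty_iff_forall_notMem]
      intro w hw
      exact hy ⟨w, hw⟩
    rw [h4, measure_empty]

/-- the conditional probability given the past is the quotient -/
theorem cond_eq (P : Measure (ℕ → V)) [IsProbabilityMeasure P] (E : Set (ℕ → V))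
    (hE : MeasurableSet E) (w : ℕ → V) (n : ℕ) :
    (P[E.indicator (fun _ => (1 : ℝ)) | Filtration.piLE (X := fun _ : ℕ => V) n]) w *
      P.real (cyl w n) = P.real (cyl w n ∩ E) := by
  have hle : (Filtration.piLE (X := fun _ : ℕ => V) n : MeasurableSpace (ℕ → V)) ≤
      MeasurableSpace.pi := Filtration.le _ n
  have hcyl : MeasurableSet (cyl w n) := hle _ (meas_cyl w n)
  have hint : Integrable (E.indicator (fun _ => (1 : ℝ))) P :=
    (integrable_const (1 : ℝ)).indicator hE
  have h1 := setIntegral_condExp hle hint (meas_cyl w n)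
  have h2 : ∫ x in cyl w n, E.indicator (fun _ => (1 : ℝ)) x ∂P = P.real (cyl w n ∩ E) := by
    rw [setIntegral_indicator hE, setIntegral_const, smul_eq_mul, mul_one]
  have hdep : DependsOn (P[E.indicator (fun _ => (1 : ℝ)) | Filtration.piLE (X := fun _ : ℕ => V) n])
      (Set.Iic n) := stronglyMeasurable_condExp.dependsOn_of_piLE
  have h3 : ∫ x in cyl w n, (P[E.indicator (fun _ => (1 : ℝ)) |
      Filtration.piLE (X := fun _ : ℕ => V) n]) x ∂P = ∫ x in cyl w n,
        (P[E.indicator (fun _ => (1 : ℝ)) | Filtration.piLE (X := fun _ : ℕ => V) n]) w ∂P := by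
    refine setIntegral_congr_fun hcyl (fun x hx => ?_)
    exact hdep (fun k hk => hx k hk)
  rw [h3, h2, setIntegral_const, smul_eq_mul, mul_comm] at h1
  exact h1

end Pool.Agent.H105.DELEVY

namespace Pool.Agent.H105

open MeasureTheory Filter Pool.Agent.H979.DE
open scoped ENNReal

theorem de_levy : S_LEVY := by
  intro V _ _ _ P _ E hE ε hε Q hQ
  have hint : Integrable (E.indicator (fun _ => (1 : ℝ))) P :=
    (integrable_const (1 : ℝ)).indicator hE
  have hsm : StronglyMeasurable[⨆ n, (Filtration.piLE (X := fun _ : ℕ => V) n :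
      MeasurableSpace (ℕ → V))] (E.indicator (fun _ => (1 : ℝ))) := by
    refine StronglyMeasurable.indicator ?_ (DELEVY.sup_le E hE)
    exact stronglyMeasurable_const
  have hconv := hint.tendsto_ae_condExp hsm
  filter_upwards [hconv, DELEVY.ae_pos P] with w hw hpos hfreq
  by_contra hwE
  rw [Set.indicator_of_notMem hwE] at hw
  have he0 : 0 < (min ε 1).toReal := by
    refine ENNReal.toReal_pos ?_ ?_
    · exact (lt_min hε one_pos).ne'
    · exact ne_top_of_le_ne_top ENNReal.one_ne_top (min_le_right _ _)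
  have hev := hw.eventually (gt_mem_nhds he0)
  obtain ⟨n, hn1, hn2⟩ := (hfreq.and_eventually hev).exists
  have h1 := DELEVY.cond_eq P E hE w n
  have h2 : (min ε 1).toReal * P.real (cyl w n) ≤ P.real (cyl w n ∩ E) := by
    have h3 : min ε 1 * P (cyl w n) ≤ P (cyl w n ∩ E) :=
      le_trans (mul_le_mul_left (min_le_left _ _) _) (hQ w n hn1)
    have h4 := ENNReal.toReal_mono (measure_ne_top P _) h3
    rwa [ENNReal.toReal_mul] at h4
  have h5 : 0 < P.real (cyl w n) := ENNReal.toReal_pos (hpos n) (measure_ne_top P _)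
  rw [← h1] at h2
  have h6 := le_of_mul_le_mul_right h2 h5
  exact absurd hn2 (not_lt.2 h6)

end Pool.Agent.H105
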