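import Pool.Agent.H465.OC.StmC

/-!
# Project OC (helper465), task C4: the Hecke operator in level one, all weights
-/

set_option autoImplicit false

noncomputable section

open UpperHalfPlane hiding I
open ModularForm MatrixGroups EisensteinSeries
open Pool.Agent.Q279.SC Pool.Agent.Q237.SX
open Pool.Agent.H465.OC

namespace Pool.Agent.H105.OCHeckeQ

theorem VV_coeff_mul (p : ℕ) [hp : Fact p.Prime] {R : Type} [CommRing R] (x : LaurentSeries R)
    (m : ℤ) : (VV p R x).coeff (p * m) = x.coeff m := by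
  have h : VV p R x = HahnSeries.embDomain (Γ := ℤ) (Γ' := ℤ)
      ⟨⟨AddMonoidHom.mulLeft (p : ℤ), fun a b h => by
        have h0 : (p : ℤ) ≠ 0 := by exact_mod_cast hp.out.ne_zero
        exact mul_left_cancel₀ h0 h⟩, by
        intro a b
        have h0 : (0 : ℤ) < p := by exact_mod_cast hp.out.pos
        exact mul_le_mul_iff_right₀ h0⟩ x := rfl
  rw [h]
  exact HahnSeries.embDomain_coeff (Γ := ℤ) (Γ' := ℤ) (a := m)

theorem VV_coeff_not (p : ℕ) [hp : Fact p.Prime] {R : Type} [CommRing R] (x : LaurentSeries R)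
    (n : ℤ) (hn : ¬ (p : ℤ) ∣ n) : (VV p R x).coeff n = 0 := by
  have h : VV p R x = HahnSeries.embDomain (Γ := ℤ) (Γ' := ℤ)
      ⟨⟨AddMonoidHom.mulLeft (p : ℤ), fun a b h => by
        have h0 : (p : ℤ) ≠ 0 := by exact_mod_cast hp.out.ne_zero
        exact mul_left_cancel₀ h0 h⟩, by
        intro a b
        have h0 : (0 : ℤ) < p := by exact_mod_cast hp.out.pos
        exact mul_le_mul_iff_right₀ h0⟩ x := rfl
  rw [h]
  apply HahnSeries.embDomain_of_notMem_range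
  rintro ⟨m, hm⟩
  exact hn ⟨m, hm.symm⟩

theorem UU_coeff (p : ℕ) [Fact p.Prime] {R : Type} [CommRing R] (x : LaurentSeries R) (n : ℤ) :
    (UU p R x).coeff n = x.coeff (p * n) := rfl

theorem lmap_coeff {R S : Type} [CommRing R] [CommRing S] (φ : R →+* S) (x : LaurentSeries R)
    (n : ℤ) : (lmap φ x).coeff n = φ (x.coeff n) := rfl

theorem lmap_VV (p : ℕ) [Fact p.Prime] {R S : Type} [CommRing R] [CommRing S] (φ : R →+* S)
    (x : LaurentSeries R) : lmap φ (VV p R x) = VV p S (lmap φ x) := by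
  ext n
  rw [lmap_coeff]
  by_cases hn : (p : ℤ) ∣ n
  · obtain ⟨m, rfl⟩ := hn
    rw [VV_coeff_mul, VV_coeff_mul, lmap_coeff]
  · rw [VV_coeff_not p _ n hn, VV_coeff_not p _ n hn, map_zero]

theorem lmap_UU (p : ℕ) [Fact p.Prime] {R S : Type} [CommRing R] [CommRing S] (φ : R →+* S)
    (x : LaurentSeries R) : lmap φ (UU p R x) = UU p S (lmap φ x) := by
  ext n
  rw [lmap_coeff, UU_coeff, UU_coeff, lmap_coeff]

theorem lmap_add {R S : Type} [CommRing R] [CommRing S] (φ : R →+* S) (x y : LaurentSeries R) :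
    lmap φ (x + y) = lmap φ x + lmap φ y := by
  ext n
  rw [HahnSeries.coeff_add, lmap_coeff, lmap_coeff, lmap_coeff, HahnSeries.coeff_add, map_add]

theorem lmap_smul {R S : Type} [CommRing R] [CommRing S] (φ : R →+* S) (c : R)
    (x : LaurentSeries R) : lmap φ (c • x) = φ c • lmap φ x := by
  ext n
  rw [HahnSeries.coeff_smul, lmap_coeff, lmap_coeff, HahnSeries.coeff_smul, smul_eq_mul, smul_eq_mul,
    map_mul]

theorem main : HLB → WHol → HInv → HeckeQ := by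
  rintro ⟨-, h2, h3, h4, h5⟩ hW hI p hp i s g
  have hp0 : (p : ℂ) ≠ 0 := by exact_mod_cast hp.out.ne_zero
  obtain ⟨hInv, hHL⟩ := h5 i s g
  obtain ⟨hV, hU⟩ := h4 p _ _ hHL
  have hF := (h2 _ _ _ _ hV (h3 ((p : ℂ) ^ (-wt i s)) _ _ hU)).1
  have e : VV p ℂ (lmap (algebraMap ℚ ℂ) (fL i s g)) +
      (p : ℂ) ^ (-wt i s) • (p : ℂ) • UU p ℂ (lmap (algebraMap ℚ ℂ) (fL i s g)) =
      lmap (algebraMap ℚ ℂ) (VV p ℚ (fL i s g) + ((p : ℚ) ^ (1 - wt i s)) • UU p ℚ (fL i s g)) := by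
    rw [lmap_add, lmap_VV, lmap_smul, lmap_UU, smul_smul]
    congr 2
    rw [map_zpow₀, map_natCast, sub_eq_add_neg, zpow_add₀ hp0, zpow_one, mul_comm]
  rw [e] at hF
  obtain ⟨Q, hQ1, hQ2⟩ := hW i s _ _ (hI p _ _ hInv) hF
  exact ⟨Q, hQ1, hQ2⟩

end Pool.Agent.H105.OCHeckeQ

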