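import Pool.Agent.H465.OC.StmB
import Pool.Graph.R_pool_sql_team_seeded_3997aac3.Q237.SX.Ram2

/-!
# Project OC (helper465), task B11: isobaric polynomials of weight `6 m`
-/

set_option autoImplicit false

namespace Pool.Agent.H105.OCIsoJ

open Pool.Agent.H465.OC Pool.Agent.Q279.SC

noncomputable section

/-- The polynomial in `j`. -/
def gg {F : Type} [Field F] (G : P2 F) : Polynomial F :=
  ∑ d ∈ G.support, Polynomial.C (MvPolynomial.coeff d G) * Polynomial.X ^ (d 0 / 3) *
    (Polynomial.X - Polynomial.C 1728) ^ (d 1 / 2)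

theorem wt {F : Type} [Field F] {G : P2 F} {w : ℕ} (hG : Iso G w) (d : Fin 2 →₀ ℕ)
    (hd : d ∈ G.support) : 2 * d 0 + 3 * d 1 = w := by
  have h := hG (MvPolynomial.mem_support_iff.1 hd)
  rw [Finsupp.weight_apply, Finsupp.sum_fintype _ _ (by simp)] at h
  rw [Fin.sum_univ_two] at h
  simp at h
  omega

theorem gen {F : Type} [Field F] {G : P2 F} {m : ℕ} (hG : Iso G (6 * m)) {A : Type} [CommRing A]
    [Algebra F A] {u v D J : A} (h1 : u ^ 3 = J * D) (h2 : v ^ 2 = (J - 1728) * D) :
    MvPolynomial.aeval ![u, v] G = D ^ m * Polynomial.aeval J (gg G) := by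
  rw [MvPolynomial.aeval_def, MvPolynomial.eval₂_eq', gg, map_sum, Finset.mul_sum]
  refine Finset.sum_congr rfl fun d hd => ?_
  have hw := wt hG d hd
  rw [Fin.prod_univ_two]
  obtain ⟨a, ha⟩ : ∃ a, d 0 = 3 * a := ⟨d 0 / 3, by omega⟩
  obtain ⟨b, hb⟩ : ∃ b, d 1 = 2 * b := ⟨d 1 / 2, by omega⟩
  have hab : a + b = m := by omega
  have ha' : 3 * a / 3 = a := by omega
  have hb' : 2 * b / 2 = b := by omega
  simp only [Matrix.cons_val_zero, Matrix.cons_val_one, ha, hb, ha', hb', map_mul, map_pow, map_sub,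
    Polynomial.aeval_C, Polynomial.aeval_X, map_ofNat]
  rw [pow_mul, pow_mul, h1, h2, ← hab, mul_pow, mul_pow, pow_add]
  ring

theorem lsD (R : Type) [CommRing R] : ls (qD R) * Di R = 1 := by
  obtain ⟨-, h2, h3, -⟩ := Pool.Agent.Q237.SX.ram
  have e1 : qD R = PowerSeries.X * qd R := by
    unfold qD qd
    rw [h2, map_mul, PowerSeries.map_X]
  have e2 : PowerSeries.constantCoeff (qd R) = 1 := by
    unfold qd
    rw [← PowerSeries.coeff_zero_eq_constantCoeff_apply, PowerSeries.coeff_map,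
      PowerSeries.coeff_zero_eq_constantCoeff_apply, h3, map_one]
  have e3 : qd R * PowerSeries.invOfUnit (qd R) 1 = 1 :=
    PowerSeries.mul_invOfUnit _ _ (by rw [e2]; simp)
  have e4 : ls (PowerSeries.X : PowerSeries R) = HahnSeries.single 1 1 := HahnSeries.ofPowerSeries_X
  have e5 : ∀ f g : PowerSeries R, ls (f * g) = ls f * ls g := fun f g => map_mul _ f g
  have e6 : ls (1 : PowerSeries R) = 1 := map_one _
  unfold Di
  rw [e1, e5, e4]
  calc HahnSeries.single 1 1 * ls (qd R) * (HahnSeries.single (-1) 1 * ls (PowerSeries.invOfUnit (qd R) 1)) =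
      (HahnSeries.single (1 : ℤ) (1 : R) * HahnSeries.single (-1) 1) * (ls (qd R) * ls (PowerSeries.invOfUnit (qd R) 1)) := by
        ring
    _ = 1 := by
        rw [← e5, e3, e6, HahnSeries.single_mul_single]
        simp

theorem ls46 (R : Type) [CommRing R] : ls (q6 R) ^ 2 = ls (q4 R) ^ 3 - 1728 * ls (qD R) := by
  obtain ⟨h1, -⟩ := Pool.Agent.Q237.SX.ram
  have e1 : 1728 * qD R = q4 R ^ 3 - q6 R ^ 2 := by
    have h := congrArg (PowerSeries.map (Int.castRingHom R)) h1
    rw [map_mul, map_sub, map_pow, map_pow, map_ofNat] at h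
    exact h
  have h := congrArg (HahnSeries.ofPowerSeries ℤ R) e1
  rw [map_mul, map_sub, map_pow, map_pow, map_ofNat] at h
  change 1728 * ls (qD R) = ls (q4 R) ^ 3 - ls (q6 R) ^ 2 at h
  rw [h]
  ring

theorem ls_ev {F : Type} [Field F] (G : P2 F) :
    ls (ev F G) = MvPolynomial.aeval ![ls (q4 F), ls (q6 F)] G := by
  have h : (HahnSeries.ofPowerSeries ℤ F).comp (ev F) =
      (MvPolynomial.aeval (R := F) ![ls (q4 F), ls (q6 F)] : P2 F →ₐ[F] LaurentSeries F).toRingHom := by
    apply MvPolynomial.ringHom_ext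
    · intro r
      have e1 : algebraMap F (LaurentSeries F) r = HahnSeries.C r := by
        rw [HahnSeries.algebraMap_apply']
        simp
      simp [ev, e1]
    · intro i
      fin_cases i
      · simp [ev, ls]
      · simp [ev, ls]
  exact congrFun (congrArg DFunLike.coe h) G

theorem main : IsoJ := by
  intro F _ h6 m G hG
  refine ⟨gg G, ?_, ?_⟩
  · rw [ls_ev]
    have hD := lsD F
    refine gen hG (D := ls (qD F)) (J := jj F) ?_ ?_
    · unfold jj
      calc ls (q4 F) ^ 3 = ls (q4 F) ^ 3 * (ls (qD F) * Di F) := by rw [hD, mul_one]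
        _ = _ := by ring
    · rw [ls46]
      unfold jj
      calc ls (q4 F) ^ 3 - 1728 * ls (qD F) =
          ls (q4 F) ^ 3 * (ls (qD F) * Di F) - 1728 * ls (qD F) := by rw [hD, mul_one]
        _ = _ := by ring
  · intro x y D hD hD0
    have h := gen hG (A := F) (u := x) (v := y) (D := D) (J := x ^ 3 / D) (by field_simp) (by
      field_simp
      linear_combination hD)
    rw [MvPolynomial.aeval_def, Polynomial.aeval_def] at h
    exact h

end

end Pool.Agent.H105.OCIsoJ

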