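import Pool.Agent.H683.SC.PStm

/-!
# The subgraph component polynomial: the final test can be computed in polynomial time
-/

set_option autoImplicit false

namespace Pool.Agent.NPC.H105SC

open Turing Pool.Agent.NPC Pool.Agent.H633R2 Pool.Agent.H683.MC Pool.Agent.H683.SC

theorem size_le_of_lt {n k : ℕ} (h : n < 2 ^ k) : n.size ≤ k := Nat.size_le.2 h

/-- the size of the value of a polynomial -/
theorem evq_size (q : ℕ) : ∀ l : List ℕ,
    (l.foldr (fun c acc => c + q * acc) 0).size ≤ sz l + l.length * q.size := by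
  intro l
  induction l with
  | nil => simp
  | cons c l ih =>
    rw [List.foldr_cons]
    obtain ⟨v, hv⟩ : ∃ v, v = l.foldr (fun c acc => c + q * acc) 0 := ⟨_, rfl⟩
    rw [← hv] at ih ⊢
    have h1 := Nat.lt_size_self c
    have h2 : q * v < 2 ^ (q.size + v.size) := by
      rw [pow_add]
      exact Nat.mul_lt_mul'' (Nat.lt_size_self q) (Nat.lt_size_self v)
    have h3 : c + q * v < 2 ^ (c.size + (q.size + v.size) + 1) := by
      have h4 : 2 ^ c.size ≤ 2 ^ (c.size + (q.size + v.size)) :=
        Nat.pow_le_pow_right (by norm_num) (by omega)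
      have h5 : 2 ^ (q.size + v.size) ≤ 2 ^ (c.size + (q.size + v.size)) :=
        Nat.pow_le_pow_right (by norm_num) (by omega)
      rw [pow_succ]
      omega
    have h4 := size_le_of_lt h3
    have h5 := size_le_sz c
    have h6 : sz (c :: l) = sz c + sz l + 1 := by simp
    have h7 : (c :: l).length * q.size = l.length * q.size + q.size := by
      rw [List.length_cons]
      ring
    rw [h6, h7]
    omega

/-- evaluation -/
theorem poly_evq {α : Type} [TEnc α] {l : α → List ℕ} {q : α → ℕ} (hl : Poly l) (hq : Poly q) :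
    Poly (fun a => evq (l a) (q a)) := by
  obtain ⟨r, hr⟩ := hl.sz_le
  obtain ⟨r', hr'⟩ := hq.sz_le
  refine Poly.foldr (s := fun _ => 0) (F := fun a c acc => c + q a * acc) hl (Poly.const 0)
    (Poly.add (Poly.fst (Poly.snd Poly.id)) (Poly.mul (hq.comp (Poly.fst Poly.id))
      (Poly.snd (Poly.snd Poly.id))))
    (Polynomial.C 4 * (r + r * r') + Polynomial.C 1) ?_
  intro a k hk
  have h1 := sz_nat_le (((l a).drop k).foldr (fun c acc => c + q a * acc) 0)
  have h2 := evq_size (q a) ((l a).drop k)
  have h3 := Poly.sz_drop_le (l a) k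
  have h4 := hr a
  have h5 := hr' a
  have h6 := size_le_sz (q a)
  have h7 := length_lt_sz (l a)
  have h8 : ((l a).drop k).length * (q a).size ≤ r.eval (sz a) * r'.eval (sz a) := by
    refine Nat.mul_le_mul ?_ (by omega)
    rw [List.length_drop]
    omega
  simp only [Polynomial.eval_add, Polynomial.eval_mul, Polynomial.eval_C]
  omega

/-- powers, with the exponent in unary -/
theorem poly_pow {α : Type} [TEnc α] {b m : α → ℕ} (hb : Poly b) (hm : UPoly m) :
    Poly (fun a => b a ^ m a) := by
  obtain ⟨r, hr⟩ := hb.sz_le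
  obtain ⟨r', hr'⟩ := Poly.sz_le hm
  have key : ∀ (c k : ℕ), (fun x => x * c)^[k] 1 = c ^ k := by
    intro c k
    induction k with
    | zero => rfl
    | succ k ih => rw [Function.iterate_succ_apply', ih, pow_succ]
  refine (Poly.iterLen (l := fun a => List.replicate (m a) ()) (s := fun _ => 1)
    (F := fun a x => x * b a) hm (Poly.const 1)
    (Poly.mul (Poly.snd Poly.id) (hb.comp (Poly.fst Poly.id)))
    (Polynomial.C 4 * (r' * r + Polynomial.C 1) + Polynomial.C 1) ?_).congr fun a => ?_
  · intro a k hk
    rw [key]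
    rw [List.length_replicate] at hk
    have h1 := sz_nat_le (b a ^ k)
    have h2 : b a ^ k < 2 ^ (k * (b a).size + 1) := by
      have h3 : b a ^ k ≤ (2 ^ (b a).size) ^ k :=
        Nat.pow_le_pow_left (Nat.lt_size_self (b a)).le k
      rw [← pow_mul, mul_comm] at h3
      refine lt_of_le_of_lt h3 ?_
      exact Nat.pow_lt_pow_right (by norm_num) (by omega)
    have h3 := size_le_of_lt h2
    have h4 := hr a
    have h5 := hr' a
    have h6 := size_le_sz (b a)
    have h7 := length_lt_sz (List.replicate (m a) ())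
    rw [List.length_replicate] at h7
    have h8 : k * (b a).size ≤ r'.eval (sz a) * r.eval (sz a) :=
      Nat.mul_le_mul (by omega) (by omega)
    simp only [Polynomial.eval_add, Polynomial.eval_mul, Polynomial.eval_C]
    omega
  · rw [key, List.length_replicate]

theorem poly_evs {α : Type} [TEnc α] {tab : α → List (List ℕ)} {q : α → ℕ} (ht : Poly tab)
    (hq : Poly q) (r : ℕ) : Poly (fun a => evs (tab a) (q a) r) := by
  unfold evs
  refine Poly.sum (Poly.map (F := fun a p => evq p.1 (q a)) (Poly.filter
    (p := fun _ p => decide (p.2 % 2 = r)) (Poly.zipIdx ht) ?_) ?_)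
  · exact Poly.decide_eq (Poly.mod (Poly.snd (Poly.snd Poly.id)) (Poly.const 2)) (Poly.const r)
  · exact poly_evq (l := fun x : α × (List ℕ × ℕ) => x.2.1) (q := fun x => q x.1)
      (Poly.fst (Poly.snd Poly.id)) (hq.comp (Poly.fst Poly.id))

/-- The test can be computed in polynomial time. -/
theorem PPOST : S_PPOST := by
  intro α _ q m tab hq hm ht
  unfold post
  have hpow : Poly (fun a => (q a - 1) ^ m a) :=
    poly_pow (Poly.sub hq.toPoly (Poly.const 1)) hm
  have hpar : ∀ r : ℕ, Poly (fun a => decide (m a % 2 = r)) := fun r =>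
    Poly.decide_eq (Poly.mod hm.toPoly (Poly.const 2)) (Poly.const r)
  exact Poly.not (Poly.decide_eq
    (Poly.add (poly_evs ht hq.toPoly 0) (Poly.ite (hpar 1) hpow (Poly.const 0)))
    (Poly.add (poly_evs ht hq.toPoly 1) (Poly.ite (hpar 0) hpow (Poly.const 0))))

end Pool.Agent.NPC.H105SC
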