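import Pool.Agent.H133.ZM.Stm2

/-!
Project ZM2 (helper133), problem MP_22c8d1_co: the doubling step.
-/

set_option autoImplicit false

namespace Pool.Agent.H105.ZME

open Finset Pool.Agent.H133.ZM

/-- the kernel of the reduction from `ZMod (2 h)` to `ZMod h` -/
theorem half {h : ℕ} (hh : 1 ≤ h) (hd : h ∣ 2 * h) (x : ZMod (2 * h))
    (hx : ZMod.castHom hd (ZMod h) x = 0) : x = 0 ∨ x = (h : ZMod (2 * h)) := by
  have hne : NeZero (2 * h) := ⟨by omega⟩
  have h1 : ((x.val : ℕ) : ZMod (2 * h)) = x := ZMod.natCast_zmod_val x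
  rw [← h1, map_natCast, ZMod.natCast_eq_zero_iff] at hx
  obtain ⟨t, ht⟩ := hx
  have h2 : x.val < 2 * h := ZMod.val_lt x
  have h3 : t < 2 := by
    by_contra hcon
    have h4 : h * 2 ≤ h * t := Nat.mul_le_mul_left h (not_lt.1 hcon)
    omega
  interval_cases t
  · left
    rw [← h1, ht, mul_zero, Nat.cast_zero]
  · right
    rw [← h1, ht, mul_one]

/-- the theorem for `h` inside a set of `3 h - 1` vertices -/
theorem loc {V : Type} [Fintype V] [DecidableEq V] (G : SimpleGraph V) (h : ℕ) (hh : 1 ≤ h)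
    (hb : S_base h) (c : Sym2 V → ZMod (2 * h)) (S : Finset V) (hS : S.card + 1 = 3 * h)
    (he : eI Gᶜ S + 2 ≤ 2 * h) :
    ∃ F : Finset (Sym2 V), IsM G F ∧ (∀ e ∈ F, ∀ v ∈ e, v ∈ S) ∧ F.card = h ∧
      (∑ e ∈ F, c e = 0 ∨ ∑ e ∈ F, c e = (h : ZMod (2 * h))) := by
  classical
  have hd : h ∣ 2 * h := ⟨2, by ring⟩
  let i : {x // x ∈ S} → V := Subtype.val
  have hi : Function.Injective i := Subtype.val_injective
  have hinj : Function.Injective (Sym2.map i) := Sym2.map.injective hi
  let H : SimpleGraph {x // x ∈ S} := G.comap i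
  have hcard : Fintype.card {x // x ∈ S} + 1 = 3 * h := by
    rw [Fintype.card_coe]
    exact hS
  have hmis : mis H + 2 ≤ 2 * h := by
    have h1 : mis H ≤ eI Gᶜ S := by
      unfold mis eI
      refine Set.ncard_le_ncard_of_injOn (Sym2.map i) ?_ hinj.injOn (Set.toFinite _)
      intro e he
      induction e with
      | _ a b =>
        rw [SimpleGraph.mem_edgeSet, SimpleGraph.compl_adj] at he
        rw [Sym2.map_mk]
        refine ⟨?_, ?_⟩
        · show s(i a, i b) ∈ Gᶜ.edgeSet
          rw [SimpleGraph.mem_edgeSet, SimpleGraph.compl_adj]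
          exact ⟨fun hab => he.1 (hi hab), he.2⟩
        · intro v hv
          rcases Sym2.mem_iff.1 hv with rfl | rfl
          · exact a.2
          · exact b.2
    omega
  obtain ⟨M, hM, hMc, hMs⟩ := hb {x // x ∈ S} H
    (fun e => ZMod.castHom hd (ZMod h) (c (Sym2.map i e))) hcard hmis
  refine ⟨M.image (Sym2.map i), ⟨?_, ?_⟩, ?_, ?_, ?_⟩
  · intro e he
    obtain ⟨e', he', rfl⟩ := Finset.mem_image.1 he
    have h1 := hM.1 e' he'
    clear he
    induction e' with
    | _ a b =>
      rw [Sym2.map_mk]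
      rw [SimpleGraph.mem_edgeSet] at h1
      exact h1
  · intro e he f hf hef v hve hvf
    obtain ⟨e', he', rfl⟩ := Finset.mem_image.1 he
    obtain ⟨f', hf', rfl⟩ := Finset.mem_image.1 hf
    obtain ⟨a, ha, hav⟩ := Sym2.mem_map.1 hve
    obtain ⟨b, hb, hbv⟩ := Sym2.mem_map.1 hvf
    have hab : a = b := hi (hav.trans hbv.symm)
    subst hab
    exact hM.2 e' he' f' hf' (fun h2 => hef (by rw [h2])) a ha hb
  · intro e he v hv
    obtain ⟨e', he', rfl⟩ := Finset.mem_image.1 he
    obtain ⟨a, ha, hav⟩ := Sym2.mem_map.1 hv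
    rw [← hav]
    exact a.2
  · rw [Finset.card_image_of_injective _ hinj, hMc]
  · apply half hh hd
    rw [Finset.sum_image (fun a _ b _ hab => hinj hab), map_sum]
    exact hMs

end Pool.Agent.H105.ZME

namespace Pool.Agent.H105

open Finset Pool.Agent.H133.ZM

theorem t_Edouble : S_Edouble := by
  classical
  intro hwalk h hh hb V _ _ G c hV hmis
  by_contra hno
  -- the good sets
  have hloc : ∀ S : Finset V, ∃ F : Finset (Sym2 V), S.card = 3 * h - 1 → eI Gᶜ S < 2 * h - 1 →
      IsM G F ∧ (∀ e ∈ F, ∀ v ∈ e, v ∈ S) ∧ F.card = h ∧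
      (∑ e ∈ F, c e = 0 ∨ ∑ e ∈ F, c e = (h : ZMod (2 * h))) := by
    intro S
    by_cases hS : S.card = 3 * h - 1 ∧ eI Gᶜ S < 2 * h - 1
    · obtain ⟨F, hF⟩ := ZME.loc G h hh hb c S (by omega) (by omega)
      exact ⟨F, fun _ _ => hF⟩
    · exact ⟨∅, fun h1 h2 => absurd ⟨h1, h2⟩ hS⟩
  choose F hF using hloc
  refine hwalk V Gᶜ (3 * h - 1) (2 * h - 1) (by omega) (by omega) ?_
    (fun S => decide (∑ e ∈ F S, c e = 0)) ?_
  · have h1 : (Gᶜ).edgeSet.ncard = mis G := rfl
    rw [h1]
    omega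
  · intro S T hS hT hST hgS hgT hτ
    obtain ⟨hMS, hvS, hcS, hsS⟩ := hF S hS hgS
    obtain ⟨hMT, hvT, hcT, hsT⟩ := hF T hT hgT
    have hdis : ∀ v, v ∈ S → v ∉ T := fun v hv hv' => (Finset.disjoint_left.1 hST) hv hv'
    -- the edges of the two matchings have no common vertex
    have hvv : ∀ e ∈ F S, ∀ f ∈ F T, ∀ v ∈ e, v ∉ f := by
      intro e he f hf v hve hvf
      exact hdis v (hvS e he v hve) (hvT f hf v hvf)
    have hdF : Disjoint (F S) (F T) := by
      rw [Finset.disjoint_left]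
      intro e he he'
      obtain ⟨v, hv⟩ : ∃ v, v ∈ e := by
        induction e with
        | _ a b => exact ⟨a, Sym2.mem_mk_left a b⟩
      exact hvv e he e he' v hv hv
    apply hno
    refine ⟨F S ∪ F T, ⟨?_, ?_⟩, ?_, ?_⟩
    · intro e he
      rcases Finset.mem_union.1 he with he | he
      · exact hMS.1 e he
      · exact hMT.1 e he
    · intro e he f hf hef v hve hvf
      rcases Finset.mem_union.1 he with he | he
      · rcases Finset.mem_union.1 hf with hf | hf
        · exact hMS.2 e he f hf hef v hve hvf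
        · exact hvv e he f hf v hve hvf
      · rcases Finset.mem_union.1 hf with hf | hf
        · exact hvv f hf e he v hvf hve
        · exact hMT.2 e he f hf hef v hve hvf
    · rw [Finset.card_union_of_disjoint hdF, hcS, hcT]
      ring
    · rw [Finset.sum_union hdF]
      have h2 : (∑ e ∈ F S, c e = 0) ↔ (∑ e ∈ F T, c e = 0) := by
        exact decide_eq_decide.1 hτ
      have h3 : (h : ZMod (2 * h)) + (h : ZMod (2 * h)) = 0 := by
        have h4 : ((2 * h : ℕ) : ZMod (2 * h)) = 0 := ZMod.natCast_self _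
        rw [← h4]
        push_cast
        ring
      rcases hsS with hsS | hsS
      · rw [hsS, h2.1 hsS, add_zero]
      · rcases hsT with hsT | hsT
        · rw [hsT, h2.2 hsT, add_zero]
        · rw [hsS, hsT, h3]

end Pool.Agent.H105
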